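import Pool.Graph.R_pool_sql_team_seeded_3dad9d7b.NH39.CG.Front
import Pool.Graph.R_seed8.H813R2.CS.Asm
import Pool.Graph.R_seed8.H813R2.CS.T_BL
import Pool.Graph.R_seed8.H813R2.CS.T_CHAIN
import Pool.Graph.R_seed8.H813R2.CS.T_COV
import Pool.Graph.R_seed8.H813R2.CS.T_CPL
import Pool.Graph.R_seed8.H813R2.CS.T_D1
import Pool.Graph.R_seed8.H813R2.CS.T_D2A
import Pool.Graph.R_seed8.H813R2.CS.T_D2B
import Pool.Graph.R_seed8.H813R2.CS.T_D3
import Pool.Graph.R_seed8.H813R2.CS.T_DEN
import Pool.Graph.R_seed8.H813R2.CS.T_DIG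
import Pool.Graph.R_seed8.H813R2.CS.T_E1
import Pool.Graph.R_seed8.H813R2.CS.T_E2
import Pool.Graph.R_seed8.H813R2.CS.T_E3
import Pool.Graph.R_seed8.H813R2.CS.T_GEO
import Pool.Graph.R_seed8.H813R2.CS.T_INFO
import Pool.Graph.R_seed8.H813R2.CS.T_MA
import Pool.Graph.R_seed8.H813R2.CS.T_MB
import Pool.Graph.R_seed8.H813R2.CS.T_MQ
import Pool.Graph.R_seed8.H813R2.CS.T_MUC
import Pool.Graph.R_seed8.H813R2.CS.T_NODE
import Pool.Graph.R_seed8.H813R2.CS.T_S1
import Pool.Graph.R_seed8.H813R2.CS.T_S3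
import Pool.Graph.R_seed8.H813R2.CS.T_STG

/-!
# MP_3c0a64_an: gauge measure of sets containing a scaled Cantor set around every point
-/

set_option autoImplicit false

open Set MeasureTheory
open scoped ENNReal

namespace Pool.Agent.Results.MP_3c0a64_an.PositiveGaugeMeasure

/-- the gauge function `φ(ρ) = ρ exp (A (log (1 / ρ)) ^ (3 / 4))` -/
noncomputable def gauge (A : ℝ) (d : ℝ≥0∞) : ℝ≥0∞ :=
  ENNReal.ofReal (d.toReal * Real.exp (A * Real.log (1 / d.toReal) ^ (3 / 4 : ℝ)))

open H813.CS Pool.Agent.NH39.CG in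
lemma coreHolds : S_CORE := by
  have E : EL := ⟨t_nonneg, t_congr, t_mono, t_cond, t_chain, t_card,
    (t_near t_chain t_mono t_card t_congr), t_fib, t_smul⟩
  have hbl := t_BL (t_D3 (t_D2 (t_D2a t_D1) E) E) E
  have hgeo := t_GEO t_DIG
  have hinfo := t_INFO t_DIG E
  have hchain := t_CHAIN t_DIG E
  have hs3 := t_S3 (t_STG hbl t_DIG hgeo t_NODE E) hinfo hchain hgeo t_DIG t_NEST t_NODE E
  have hs1 := t_S1 hbl hinfo hchain hgeo t_DIG t_NEST E
  exact core (t_MA (t_MQ hs1 hs3 t_DEN t_NODE t_XI t_DIG E) t_CPL) (t_MUC t_DIG t_XI)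

open Pool.Agent.NH39.CG in
lemma gau_near {A d η : ℝ} (hA : 0 < A) (hd0 : 0 ≤ d) (hd1 : d ≤ 1 / 2) (hη : 0 < η) :
    ∃ ρ : ℝ, d < ρ ∧ ρ < 1 ∧ gau A ρ ≤ d * Real.exp (A * Real.log (1 / d) ^ (3 / 4 : ℝ)) + η := by
  rcases hd0.eq_or_lt with h0 | h0
  · subst h0
    -- `-L + A L ^ (3 / 4) → -∞`
    obtain ⟨x, hx⟩ : ∃ x : ℝ, x = max 1 (max (2 * A) (Real.log (1 / η) + 1)) := ⟨_, rfl⟩
    have hx1 : 1 ≤ x := by rw [hx]; exact le_max_left _ _
    have hx2 : 2 * A ≤ x := by rw [hx]; exact (le_max_left _ _).trans (le_max_right _ _)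
    have hx3 : Real.log (1 / η) + 1 ≤ x := by
      rw [hx]; exact (le_max_right _ _).trans (le_max_right _ _)
    refine ⟨Real.exp (-(2 * x ^ 4)), Real.exp_pos _, ?_, ?_⟩
    · rw [Real.exp_lt_one_iff]
      have : 1 ≤ x ^ 4 := one_le_pow₀ hx1
      linarith
    · unfold gau
      rw [one_div, ← Real.exp_neg, neg_neg, Real.log_exp, zero_mul, zero_add, ← Real.exp_add]
      have h4 : (2 * x ^ 4) ^ (3 / 4 : ℝ) ≤ 2 * x ^ 3 := by
        rw [Real.mul_rpow (by norm_num) (by positivity)]
        have h1 : (2 : ℝ) ^ (3 / 4 : ℝ) ≤ 2 := by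
          calc (2 : ℝ) ^ (3 / 4 : ℝ) ≤ 2 ^ (1 : ℝ) :=
                Real.rpow_le_rpow_of_exponent_le (by norm_num) (by norm_num)
            _ = 2 := Real.rpow_one 2
        have h2 : (x ^ 4) ^ (3 / 4 : ℝ) = x ^ 3 := by
          rw [← Real.rpow_natCast, ← Real.rpow_mul (by linarith)]
          norm_num
        rw [h2]
        have : 0 ≤ x ^ 3 := by positivity
        nlinarith
      have h5 : -(2 * x ^ 4) + A * (2 * x ^ 4) ^ (3 / 4 : ℝ) ≤ Real.log η := by
        have h6 : A * (2 * x ^ 4) ^ (3 / 4 : ℝ) ≤ x ^ 4 := by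
          calc A * (2 * x ^ 4) ^ (3 / 4 : ℝ) ≤ A * (2 * x ^ 3) :=
                mul_le_mul_of_nonneg_left h4 hA.le
            _ = (2 * A) * x ^ 3 := by ring
            _ ≤ x * x ^ 3 := mul_le_mul_of_nonneg_right hx2 (by positivity)
            _ = x ^ 4 := by ring
        have h7 : Real.log (1 / η) = - Real.log η := by rw [one_div, Real.log_inv]
        have h8 : x ≤ x ^ 4 := le_self_pow₀ hx1 (by norm_num)
        linarith
      calc Real.exp (-(2 * x ^ 4) + A * (2 * x ^ 4) ^ (3 / 4 : ℝ)) ≤ Real.exp (Real.log η) :=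
            Real.exp_le_exp.2 h5
        _ = η := Real.exp_log hη
  · have hcont : ContinuousAt (gau A) d := by
      unfold gau
      have h1 : ContinuousAt (fun ρ : ℝ => Real.log (1 / ρ)) d :=
        (ContinuousAt.div continuousAt_const continuousAt_id h0.ne').log
          (div_ne_zero one_ne_zero h0.ne')
      exact continuousAt_id.mul (Real.continuous_exp.continuousAt.comp
        (continuousAt_const.mul (h1.rpow_const (Or.inr (by norm_num)))))
    have h2 : ∀ᶠ ρ in nhds d, gau A ρ < gau A d + η := by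
      have : gau A d < gau A d + η := by linarith
      exact hcont.eventually_lt continuousAt_const this
    obtain ⟨δ, hδ, hδ2⟩ := Metric.eventually_nhds_iff.1 h2
    refine ⟨d + min (δ / 2) (1 / 4), ?_, ?_, ?_⟩
    · have : 0 < min (δ / 2) (1 / 4) := lt_min (by linarith) (by norm_num)
      linarith
    · have : min (δ / 2) (1 / 4) ≤ 1 / 4 := min_le_right _ _
      linarith
    · refine (hδ2 ?_).le
      rw [Real.dist_eq, add_sub_cancel_left, abs_of_pos (lt_min (by linarith) (by norm_num))]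
      have : min (δ / 2) (1 / 4) ≤ δ / 2 := min_le_left _ _
      linarith

open Pool.Agent.NH39.CG in
/-- There is an absolute constant `A` such that every set `B` of reals which contains a scaled
copy of the centred middle-third Cantor set around every point of a set `E` of positive outer
Lebesgue measure has positive Hausdorff measure for the gauge
`φ(ρ) = ρ exp (A (log (1 / ρ)) ^ (3 / 4))`. -/
theorem result : ∃ A : ℝ, 0 < A ∧ ∀ B E : Set ℝ, volume E ≠ 0 →
    (∀ x ∈ E, ∃ r : ℝ, 0 < r ∧ ∀ c ∈ cantorSet, x + r * (c - 1 / 2) ∈ B) →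
    0 < Measure.mkMetric (gauge A) B := by
  obtain ⟨A, hA, hmain⟩ := pos_gauge coreHolds
  refine ⟨A, hA, fun B E hE hB => ?_⟩
  obtain ⟨ε, hε, hcov⟩ := hmain B E hE hB
  have key : ENNReal.ofReal (ε / 2) ≤ Measure.mkMetric (gauge A) B := by
    rw [Measure.mkMetric_apply]
    refine le_trans ?_ (le_iSup₂_of_le (1 / 2 : ℝ≥0∞) (by norm_num) le_rfl)
    refine le_iInf fun t => le_iInf fun ht => le_iInf fun htd => ?_
    -- choose the intervals
    have hex : ∀ n, ∃ a ρ : ℝ, 0 < ρ ∧ ρ < 1 ∧ t n ⊆ Set.Icc a (a + ρ) ∧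
        ENNReal.ofReal (gau A ρ) ≤ (⨆ _ : (t n).Nonempty, gauge A (Metric.ediam (t n))) +
          ENNReal.ofReal (ε / 2 * (1 / 2) ^ (n + 1)) := by
      intro n
      have hη : 0 < ε / 2 * (1 / 2) ^ (n + 1) := by positivity
      rcases (t n).eq_empty_or_nonempty with h | h
      · obtain ⟨ρ, h1, h2, h3⟩ := gau_near hA le_rfl (by norm_num : (0 : ℝ) ≤ 1 / 2) hη
        refine ⟨0, ρ, h1, h2, by rw [h]; exact Set.empty_subset _, ?_⟩
        rw [zero_mul, zero_add] at h3
        exact (ENNReal.ofReal_le_ofReal h3).trans le_add_self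
      · have hd : Metric.ediam (t n) ≤ 1 / 2 := htd n
        have hdt : Metric.ediam (t n) ≠ ⊤ := ne_top_of_le_ne_top (by norm_num) hd
        have hd0 : 0 ≤ (Metric.ediam (t n)).toReal := ENNReal.toReal_nonneg
        have hd1 : (Metric.ediam (t n)).toReal ≤ 1 / 2 := by
          have := ENNReal.toReal_mono (by norm_num) hd
          simpa using this
        obtain ⟨ρ, h1, h2, h3⟩ := gau_near hA hd0 hd1 hη
        have hbdd : BddBelow (t n) := by
          obtain ⟨x0, hx0⟩ := h
          refine ⟨x0 - (Metric.ediam (t n)).toReal, fun y hy => ?_⟩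
          have h4 : dist x0 y ≤ (Metric.ediam (t n)).toReal := by
            have h5 := Metric.edist_le_ediam_of_mem hx0 hy
            rw [edist_dist] at h5
            have h6 := ENNReal.toReal_mono hdt h5
            rwa [ENNReal.toReal_ofReal dist_nonneg] at h6
          rw [Real.dist_eq] at h4
          have := le_abs_self (x0 - y)
          linarith
        refine ⟨sInf (t n), ρ, by linarith, h2, fun y hy => ⟨csInf_le hbdd hy, ?_⟩, ?_⟩
        · have h4 : y - (Metric.ediam (t n)).toReal ≤ sInf (t n) := by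
            apply le_csInf h
            intro z hz
            have h5 := Metric.edist_le_ediam_of_mem hy hz
            rw [edist_dist] at h5
            have h6 := ENNReal.toReal_mono hdt h5
            rw [ENNReal.toReal_ofReal dist_nonneg, Real.dist_eq] at h6
            have := le_abs_self (y - z)
            linarith
          linarith
        · rw [iSup_pos h]
          unfold gauge
          rw [← ENNReal.ofReal_add (by positivity) hη.le]
          exact ENNReal.ofReal_le_ofReal h3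
    choose a ρ hρ0 hρ1 hsub hle using hex
    have h1 := hcov a ρ (fun i => ⟨hρ0 i, hρ1 i⟩) (ht.trans (Set.iUnion_mono hsub))
    have h2 : ∑' i, ENNReal.ofReal (gau A (ρ i)) ≤
        (∑' n, ⨆ _ : (t n).Nonempty, gauge A (Metric.ediam (t n))) + ENNReal.ofReal (ε / 2) := by
      refine (ENNReal.tsum_le_tsum hle).trans ?_
      rw [ENNReal.tsum_add]
      gcongr
      have h3 : HasSum (fun n : ℕ => ε / 2 * (1 / 2 : ℝ) ^ (n + 1)) (ε / 2) := by
        have h4 := (hasSum_geometric_two).mul_left (ε / 4)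
        have e : ε / 4 * 2 = ε / 2 := by ring
        rw [e] at h4
        have e2 : (fun n : ℕ => ε / 2 * (1 / 2 : ℝ) ^ (n + 1)) =
            fun i : ℕ => ε / 4 * (1 / 2 : ℝ) ^ i := by
          funext n
          rw [pow_succ]
          ring
        rw [e2]
        exact h4
      have h6 := ENNReal.ofReal_tsum_of_nonneg (f := fun n : ℕ => ε / 2 * (1 / 2 : ℝ) ^ (n + 1))
        (fun n => by positivity) h3.summable
      rw [h3.tsum_eq] at h6
      exact h6.ge
    have h5 := h1.trans h2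
    have e : ENNReal.ofReal ε = ENNReal.ofReal (ε / 2) + ENNReal.ofReal (ε / 2) := by
      rw [← ENNReal.ofReal_add (by linarith) (by linarith)]
      congr 1
      ring
    rw [e] at h5
    exact (ENNReal.add_le_add_iff_right ENNReal.ofReal_ne_top).1 h5
  exact (ENNReal.ofReal_pos.2 (by linarith)).trans_le key

end Pool.Agent.Results.MP_3c0a64_an.PositiveGaugeMeasure
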